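import Pool.Agent.ASO.StmtsH
import Pool.Agent.Helper24_ASO.HRAT

/-!
# Squad ASO, row HTZ: the heights are zero
-/

open scoped BigOperators

noncomputable section

namespace Pool.Agent.PP.SO.H92

open Pool.Agent.Helper51_AWC Pool.Agent.Helper79_WRA Pool.Agent.PP Pool.Agent.PP.KF
open Pool.Agent.PP.K9 Pool.Agent.PP.K9.H97 Pool.Agent.PP.H75 Pool.Agent.PP.T3

attribute [local instance] Ideal.Quotient.field

section tools

variable {M : Ideal (integralClosure ℤ ℂ)} [M.IsMaximal]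

/-- the residue of an `ℓ`-th root of unity -/
theorem htz_root {ℓ : ℕ} [hℓ : Fact ℓ.Prime] (hM : (ℓ : integralClosure ℤ ℂ) ∈ M) {ζ : ℂ}
    (hζ : ζ ^ ℓ = 1) (k : ℕ) : ζ ^ k ∈ RM M ∧ rr M (ζ ^ k) = 1 := by
  have hq : ℓ ≠ 0 := hℓ.out.ne_zero
  have hR : ζ ∈ RM M := by
    refine RM_of_int ⟨Polynomial.X ^ ℓ - 1, Polynomial.monic_X_pow_sub_C 1 hq, ?_⟩
    simp [hζ]
  have hch : CharP (FF M) ℓ := (H50.fld ℓ Fact.out M hM).char
  have h0 : rr M ζ = 1 := by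
    have h1 : (rr M ζ - 1) ^ ℓ = rr M ζ ^ ℓ - 1 ^ ℓ :=
      sub_pow_char_of_commute _ (Commute.all _ _)
    have h2 : rr M (ζ ^ ℓ) = rr M ζ ^ ℓ := map_pow (rrHom M) ⟨ζ, hR⟩ _
    rw [← h2, hζ, rr_one, one_pow, sub_self] at h1
    exact sub_eq_zero.1 ((pow_eq_zero_iff hq).1 h1)
  refine ⟨(RM M).pow_mem hR k, ?_⟩
  have h2 : rr M (ζ ^ k) = rr M ζ ^ k := map_pow (rrHom M) ⟨ζ, hR⟩ _
  rw [h2, h0, one_pow]

end tools

/-- the sum of the powers of a power of a root of unity -/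
theorem geo {ℓ : ℕ} {ζ : ℂ} (hζ : IsPrimitiveRoot ζ ℓ) (a : ℕ) :
    ∑ j ∈ Finset.range ℓ, ζ ^ (a * j) = if ℓ ∣ a then (ℓ : ℂ) else 0 := by
  by_cases h : ℓ ∣ a
  · rw [if_pos h]
    obtain ⟨b, rfl⟩ := h
    have h1 : ∀ j ∈ Finset.range ℓ, ζ ^ (ℓ * b * j) = 1 := by
      intro j _
      rw [mul_assoc, pow_mul, hζ.pow_eq_one, one_pow]
    rw [Finset.sum_congr rfl h1, Finset.sum_const, Finset.card_range, nsmul_eq_mul, mul_one]
  · rw [if_neg h]
    have h1 : ζ ^ a ≠ 1 := fun h2 => h (hζ.dvd_of_pow_eq_one a h2)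
    have h3 := geom_sum_mul (ζ ^ a) ℓ
    rw [← pow_mul, mul_comm a ℓ, pow_mul, hζ.pow_eq_one, one_pow, sub_self] at h3
    have h4 := (mul_eq_zero.1 h3).resolve_right (sub_ne_zero.2 h1)
    rw [← h4]
    exact Finset.sum_congr rfl fun t _ => pow_mul _ _ _

/-- if all the numbers `v_j` are divisible by `ℓ` then they are `ℓ` times numbers of the same
kind -/
theorem dft {M : Ideal (integralClosure ℤ ℂ)} [M.IsMaximal] {ℓ : ℕ} [hℓ : Fact ℓ.Prime]
    (hM : (ℓ : integralClosure ℤ ℂ) ∈ M) {ζ : ℂ} (hζ : IsPrimitiveRoot ζ ℓ) (m : ℕ → ℤ)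
    (s : ℕ → ℂ) (hs : ∀ j ∈ Finset.Icc 1 (ℓ - 1), s j ∈ RM M)
    (hv : ∀ j ∈ Finset.Icc 1 (ℓ - 1),
      ∑ i ∈ Finset.range ℓ, (m i : ℂ) * ζ ^ (i * j) = ℓ * s j) :
    ∃ n : ℕ → ℤ, ∀ j ∈ Finset.Icc 1 (ℓ - 1), ∑ i ∈ Finset.range ℓ, (m i : ℂ) * ζ ^ (i * j) =
      ℓ * ∑ i ∈ Finset.range ℓ, (n i : ℂ) * ζ ^ (i * j) := by
  have hp : ℓ.Prime := hℓ.out
  have hℓ0 : (ℓ : ℂ) ≠ 0 := by exact_mod_cast hp.ne_zero
  -- inversion
  have h1 : ∀ k ∈ Finset.range ℓ, ∑ j ∈ Finset.range ℓ,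
      (∑ i ∈ Finset.range ℓ, (m i : ℂ) * ζ ^ (i * j)) * ζ ^ ((ℓ - k) * j) = ℓ * m k := by
    intro k hk
    have hk' := Finset.mem_range.1 hk
    have e1 : ∑ j ∈ Finset.range ℓ,
        (∑ i ∈ Finset.range ℓ, (m i : ℂ) * ζ ^ (i * j)) * ζ ^ ((ℓ - k) * j) =
        ∑ i ∈ Finset.range ℓ, (m i : ℂ) * ∑ j ∈ Finset.range ℓ, ζ ^ ((i + (ℓ - k)) * j) := by
      simp_rw [Finset.sum_mul, Finset.mul_sum]
      rw [Finset.sum_comm]
      refine Finset.sum_congr rfl fun i _ => Finset.sum_congr rfl fun j _ => ?_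
      rw [add_mul, pow_add]
      ring
    rw [e1, Finset.sum_eq_single k]
    · rw [geo hζ, if_pos ⟨1, by omega⟩, mul_comm]
    · intro i hi hik
      have hi' := Finset.mem_range.1 hi
      rw [geo hζ, if_neg, mul_zero]
      rintro ⟨a, ha⟩
      rcases Nat.lt_or_ge a 1 with h | h
      · have : a = 0 := by omega
        rw [this, mul_zero] at ha
        omega
      · rcases Nat.lt_or_ge a 2 with h' | h'
        · have : a = 1 := by omega
          rw [this, mul_one] at ha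
          omega
        · have : ℓ * 2 ≤ ℓ * a := Nat.mul_le_mul_left ℓ h'
          omega
    · intro h
      exact absurd hk h
  -- differences
  have h2 : ∀ k ∈ Finset.range ℓ, ((m k : ℂ) - m 0) =
      ∑ j ∈ Finset.Icc 1 (ℓ - 1), s j * (ζ ^ ((ℓ - k) * j) - ζ ^ ((ℓ - 0) * j)) := by
    intro k hk
    apply mul_left_cancel₀ hℓ0
    rw [mul_sub, ← h1 k hk, ← h1 0 (Finset.mem_range.2 hp.pos), ← Finset.sum_sub_distrib,
      H24.range_split hp.pos, Finset.mul_sum]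
    simp only [mul_zero, pow_zero, mul_one, sub_self, zero_add]
    refine Finset.sum_congr rfl fun j hj => ?_
    rw [hv j hj]
    ring
  have h3 : ∀ k ∈ Finset.range ℓ, (ℓ : ℤ) ∣ m k - m 0 := by
    intro k hk
    rw [← dvd_of_rr (M := M) hp hM]
    push_cast
    rw [h2 k hk]
    have a1 : ∀ j ∈ Finset.Icc 1 (ℓ - 1),
        s j * (ζ ^ ((ℓ - k) * j) - ζ ^ ((ℓ - 0) * j)) ∈ RM M := fun j hj =>
      (RM M).mul_mem (hs j hj) ((RM M).sub_mem (htz_root hM hζ.pow_eq_one _).1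
        (htz_root hM hζ.pow_eq_one _).1)
    rw [rr_sum _ _ a1]
    refine Finset.sum_eq_zero fun j hj => ?_
    rw [rr_mul (hs j hj) ((RM M).sub_mem (htz_root hM hζ.pow_eq_one _).1
        (htz_root hM hζ.pow_eq_one _).1), rr_sub (htz_root hM hζ.pow_eq_one _).1
        (htz_root hM hζ.pow_eq_one _).1, (htz_root hM hζ.pow_eq_one _).2,
        (htz_root hM hζ.pow_eq_one _).2, sub_self, mul_zero]
  choose! n hn using h3
  refine ⟨n, fun j hj => ?_⟩
  have hj' := Finset.mem_Icc.1 hj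
  have h4 : ∑ i ∈ Finset.range ℓ, ζ ^ (i * j) = 0 := by
    have h5 := geo hζ j
    rw [if_neg (fun h => by
      have := Nat.le_of_dvd (by omega) h
      omega)] at h5
    rw [← h5]
    exact Finset.sum_congr rfl fun i _ => by rw [mul_comm]
  have h5 : ∀ i ∈ Finset.range ℓ, (m i : ℂ) * ζ ^ (i * j) =
      ℓ * ((n i : ℂ) * ζ ^ (i * j)) + m 0 * ζ ^ (i * j) := by
    intro i hi
    have h6 : (m i : ℂ) = ℓ * n i + m 0 := by
      have := hn i hi
      have h7 : m i = ℓ * n i + m 0 := by linarith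
      exact_mod_cast congrArg (fun z : ℤ => (z : ℂ)) h7
    rw [h6]
    ring
  rw [Finset.sum_congr rfl h5, Finset.sum_add_distrib, ← Finset.mul_sum, ← Finset.mul_sum, h4,
    mul_zero, add_zero]

/-- the numbers below `ℓ` which are prime to `ℓ` -/
theorem filt {ℓ : ℕ} (hℓ : ℓ.Prime) :
    (Finset.range ℓ).filter (fun j => ¬ ℓ ∣ j) = Finset.Icc 1 (ℓ - 1) := by
  ext j
  rw [Finset.mem_filter, Finset.mem_range, Finset.mem_Icc]
  have hp := hℓ.pos
  constructor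
  · rintro ⟨h1, h2⟩
    have h3 : j ≠ 0 := by
      rintro rfl
      exact h2 (dvd_zero ℓ)
    omega
  · rintro ⟨h1, h2⟩
    refine ⟨by omega, fun h => ?_⟩
    have := Nat.le_of_dvd (by omega) h
    omega

/-- `v_1` of a character which vanishes at the singular elements -/
theorem gv_zero (prg : K9.PrgStmt) {ℓ : ℕ} [hℓ : Fact ℓ.Prime] {M : Ideal (integralClosure ℤ ℂ)}
    [M.IsMaximal] (hM : (ℓ : integralClosure ℤ ℂ) ∈ M) {G : Type} [Group G] [Finite G] {u : G}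
    (hu : u ^ ℓ = 1) (hu1 : u ≠ 1) {b : G → FF M} (hb : IsIdem (fun t : Cu u => b t))
    {χ : G → ℂ} (hχ : ∀ g, ¬ Reg ℓ g → χ g = 0) : gv M (Cu u) u b χ = 0 := by
  have h1 := (prg ℓ M hM).1 (Cu u) (fun t : Cu u => b t) hb
  have hord : orderOf u = ℓ := orderOf_eq_prime hu hu1
  unfold gv gbv
  rw [← finsum_zero]
  refine finsum_congr fun c => ?_
  by_cases hc : Reg ℓ c
  · rw [hχ, mul_zero]
    intro h
    have hcomm : Commute u (c : G) :=
      (Subgroup.mem_centralizer_singleton_iff.1 c.2).symm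
    have hcop : (orderOf u).Coprime (orderOf (c : G)) := by
      rw [hord, Subgroup.orderOf_coe]
      exact Nat.Coprime.symm hc
    unfold Reg at h
    rw [hcomm.orderOf_mul_eq_mul_orderOf_of_coprime hcop, hord] at h
    have h2 : Nat.Coprime ℓ ℓ := Nat.Coprime.coprime_dvd_left (dvd_mul_right _ _) h
    rw [Nat.coprime_self] at h2
    exact hℓ.out.one_lt.ne' h2
  · have h3 : eh M (fun t : Cu u => b t) c = 0 := by
      have h4 : K9.pr M (fun t : Cu u => b t) c⁻¹ = 0 := by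
        apply h1.sg
        unfold Reg
        rw [orderOf_inv]
        exact hc
      unfold eh
      unfold K9.pr at h4
      rw [h4, mul_zero]
    rw [h3, zero_mul]

/-- the core -/
theorem core (cgr : T3.CgrStmt) (inr : T3.InrStmt) (glp : T3.GlpStmt) (co1 : T3.Co1Stmt)
    (lpw : T3.LpwStmt) (prg : K9.PrgStmt) {ℓ : ℕ} [hℓ : Fact ℓ.Prime]
    {M : Ideal (integralClosure ℤ ℂ)} [M.IsMaximal] (hM : (ℓ : integralClosure ℤ ℂ) ∈ M)
    {G : Type} [Group G] [Finite G] {e : G → FF M} {V : Subgroup G} {γ : G → FF M}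
    (hL : Ld ℓ e V γ) (hV : Nat.card V = ℓ ^ 2) {c : ℕ}
    (hc : Dg M (fun t : Subgroup.centralizer (V : Set G) => γ t) c) {u : G} (hu : Rg V γ u)
    (huℓ : u ^ ℓ = 1) {b : G → FF M} (hb : Lc e V γ u b) {d : ℕ}
    (hd : Dg M (fun t : Cu u => b t) d)
    (hk : (IrrE M (fun t : Cu u => b t)).ncard = Nat.card V) (hix : ¬ ℓ ∣ ix V γ)
    {χ : G → ℂ} (hχ : χ ∈ IrrE M e) {q : ℚ}
    (hq : (q : ℂ) = (Nat.card G * c : ℂ) /
      (Nat.card (Subgroup.centralizer (V : Set G)) * χ 1)) :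
    ¬ ℓ ∣ q.den ∧ ¬ (ℓ : ℤ) ∣ q.num := by
  classical
  have := Fintype.ofFinite G
  have hp : ℓ.Prime := hℓ.out
  have hℓ0 : (ℓ : ℂ) ≠ 0 := by exact_mod_cast hp.ne_zero
  have hd0 : (d : ℂ) ≠ 0 := by exact_mod_cast hd.1.ne'
  -- the residue of the index
  have hixr : ∀ ε : ℤ, (ε = 1 ∨ ε = -1) → ((ε * ix V γ : ℤ) : FF M) ≠ 0 := by
    intro ε hε h
    rw [← (rr_int (M := M) _).2, dvd_of_rr hp hM] at h
    apply hix
    rcases hε with rfl | rfl
    · rw [one_mul] at h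
      exact_mod_cast h
    · rw [neg_one_mul, dvd_neg] at h
      exact_mod_cast h
  -- the powers of `u`
  have hF := H50.fld ℓ Fact.out M hM
  have hpw : ∀ j ∈ Finset.Icc 1 (ℓ - 1), ¬ ℓ ∣ j := by
    intro j hj h
    have := Finset.mem_Icc.1 hj
    have := Nat.le_of_dvd (by omega) h
    have := hp.pos
    omega
  have hCj : ∀ j ∈ Finset.Icc 1 (ℓ - 1), Cu (u ^ j) = Cu u := fun j hj =>
    (lpw ℓ (FF M) hF G e V γ hL u hu.1 b hb j (hpw j hj)).1
  have hLj : ∀ j ∈ Finset.Icc 1 (ℓ - 1), Lc e V γ (u ^ j) b := fun j hj =>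
    (lpw ℓ (FF M) hF G e V γ hL u hu.1 b hb j (hpw j hj)).2
  have huj : ∀ j ∈ Finset.Icc 1 (ℓ - 1), u ^ j ≠ 1 := by
    intro j hj h
    have h1 : orderOf u = ℓ := orderOf_eq_prime huℓ hu.2.1
    have h2 := orderOf_dvd_of_pow_eq_one h
    rw [h1] at h2
    exact hpw j hj h2
  have hRj : ∀ j ∈ Finset.Icc 1 (ℓ - 1), Rg V γ (u ^ j) := by
    intro j hj
    refine ⟨V.pow_mem hu.1 j, huj j hj, ?_⟩
    rw [hCj j hj]
    exact hu.2.2
  have hDj : ∀ j ∈ Finset.Icc 1 (ℓ - 1), Dg M (fun t : Cu (u ^ j) => b t) d := by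
    intro j hj
    rw [hCj j hj]
    exact hd
  obtain ⟨v, hvd⟩ : ∃ v : ℕ → (G → ℂ) → ℂ, v = fun j ψ => gv M (Cu u) (u ^ j) b ψ / d := ⟨_, rfl⟩
  -- CGR
  have hcg : ∀ j ∈ Finset.Icc 1 (ℓ - 1), ∃ ε : ℤ, (ε = 1 ∨ ε = -1) ∧ ∀ ψ ∈ IrrE M e,
      (v j ψ * ((Nat.card G * c : ℂ) /
        (Nat.card (Subgroup.centralizer (V : Set G)) * ψ 1))) ∈ RM M ∧
      rr M (v j ψ * ((Nat.card G * c : ℂ) /
        (Nat.card (Subgroup.centralizer (V : Set G)) * ψ 1))) = ((ε * ix V γ : ℤ) : FF M) := by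
    intro j hj
    obtain ⟨ε, hε, h1⟩ := cgr ℓ M hM G e V γ hL c hc (u ^ j) (hRj j hj) b (hLj j hj) d (hDj j hj)
    refine ⟨ε, hε, fun ψ hψ => ?_⟩
    have h2 := h1 ψ hψ
    rw [hCj j hj] at h2
    rw [hvd]
    exact h2
  have h1m : 1 ∈ Finset.Icc 1 (ℓ - 1) := Finset.mem_Icc.2 ⟨le_rfl, by have := hp.two_le; omega⟩
  have hv1 : ∀ ψ ∈ IrrE M e, v 1 ψ ≠ 0 := by
    intro ψ hψ h0
    obtain ⟨ε, hε, h1⟩ := hcg 1 h1m
    have h2 := (h1 ψ hψ).2
    rw [h0, zero_mul, rr_zero] at h2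
    exact hixr ε hε h2.symm
  -- the roots of unity
  obtain ⟨ζ, hζ⟩ : ∃ ζ : ℂ, IsPrimitiveRoot ζ ℓ := ⟨_, Complex.isPrimitiveRoot_exp ℓ hp.ne_zero⟩
  have hIx : Ix (Cu u) b := hb.blk.ix
  obtain ⟨m, hm⟩ := inr M G u ℓ hp.pos huℓ b hIx d hd ζ hζ χ hχ.1
  have hvm : ∀ j, v j χ = ∑ i ∈ Finset.range ℓ, (m i : ℂ) * ζ ^ (i * j) := by
    intro j
    rw [hvd]
    show gv M (Cu u) (u ^ j) b χ / d = _
    rw [hm j, mul_div_cancel_left₀ _ hd0]
  have hvR : ∀ j, v j χ ∈ RM M := by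
    intro j
    rw [hvm]
    exact Subring.sum_mem _ fun i _ => (RM M).mul_mem (rr_int _).1
      (htz_root hM hζ.pow_eq_one _).1
  -- the first claim
  have hA : ¬ ℓ ∣ q.den := by
    intro hdv
    have hnum : ¬ (ℓ : ℤ) ∣ q.num := by
      intro h
      have h5 : ℓ ∣ q.num.natAbs := Int.natCast_dvd.1 h
      have h6 := Nat.dvd_gcd h5 hdv
      rw [q.reduced] at h6
      exact hp.one_lt.ne' (Nat.dvd_one.1 h6)
    obtain ⟨k, hk'⟩ := hdv
    have hq0 : (q.num : ℂ) ≠ 0 := by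
      intro h
      apply hnum
      have : q.num = 0 := by exact_mod_cast h
      rw [this]
      exact dvd_zero _
    have hnR : ((q.num : ℤ) : ℂ)⁻¹ ∈ RM M := by
      refine (inv_RM (rr_int q.num).1 fun h => hnum ?_).1
      exact (dvd_of_rr hp hM).1 h
    have hqm : (q : ℂ) * (q.den : ℂ) = q.num := by
      have := congrArg (fun x : ℚ => (x : ℂ)) (Rat.mul_den_eq_num q)
      push_cast at this
      exact this
    have hden : (q.den : ℂ) ≠ 0 := by exact_mod_cast q.den_nz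
    have hqinv : (q : ℂ) * (ℓ * (k * ((q.num : ℤ) : ℂ)⁻¹)) = 1 := by
      have h2 : (q.den : ℂ) = ℓ * k := by
        rw [hk']
        push_cast
        ring
      rw [h2] at hqm
      calc (q : ℂ) * (ℓ * (k * ((q.num : ℤ) : ℂ)⁻¹)) = (q : ℂ) * (ℓ * k) * ((q.num : ℤ) : ℂ)⁻¹ := by
            ring
        _ = 1 := by rw [hqm, mul_inv_cancel₀ hq0]
    -- the numbers `v_j` are divisible by `ℓ`
    obtain ⟨s, hs⟩ : ∃ s : ℕ → ℂ, s = fun j => v j χ * q * (k * ((q.num : ℤ) : ℂ)⁻¹) := ⟨_, rfl⟩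
    obtain ⟨n, hn⟩ := dft hM hζ m s (by
      intro j hj
      obtain ⟨ε, hε, h1⟩ := hcg j hj
      have h2 := (h1 χ hχ).1
      rw [← hq] at h2
      rw [hs]
      exact (RM M).mul_mem h2 ((RM M).mul_mem (rr_nat _).1 hnR)) (by
      intro j hj
      rw [← hvm, hs]
      show v j χ = ℓ * (v j χ * q * (k * ((q.num : ℤ) : ℂ)⁻¹))
      calc v j χ = v j χ * ((q : ℂ) * (ℓ * (k * ((q.num : ℤ) : ℂ)⁻¹))) := by rw [hqinv, mul_one]
        _ = _ := by ring)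
    -- GLP
    have hn1 : ∑ i ∈ Finset.range ℓ, (n i : ℂ) * ζ ^ i ≠ 0 := by
      intro h
      have h2 := hn 1 h1m
      rw [← hvm] at h2
      simp only [mul_one] at h2
      rw [h, mul_zero] at h2
      exact hv1 χ hχ h2
    have hg := (glp ℓ 1 one_pos ζ (by rwa [pow_one]) n (by rwa [pow_one])).1
    rw [pow_one, filt hp, Nat.sub_self, pow_zero, one_mul] at hg
    have hg2 : ((ℓ : ℝ) ^ 2 * ((ℓ - 1 : ℕ) : ℝ)) ≤
        ∑ j ∈ Finset.Icc 1 (ℓ - 1), Complex.normSq (v j χ) := by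
      have h2 : ∀ j ∈ Finset.Icc 1 (ℓ - 1), Complex.normSq (v j χ) =
          (ℓ : ℝ) ^ 2 * Complex.normSq (∑ i ∈ Finset.range ℓ, (n i : ℂ) * ζ ^ (i * j)) := by
        intro j hj
        rw [hvm, hn j hj, Complex.normSq_mul, Complex.normSq_natCast]
        ring
      rw [Finset.sum_congr rfl h2, ← Finset.mul_sum]
      exact mul_le_mul_of_nonneg_left hg (by positivity)
    -- CO1
    have hfin : (Irr G).Finite := irr_finite'
    have hco : ∀ j ∈ Finset.Icc 1 (ℓ - 1),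
        ∑ ψ ∈ hfin.toFinset, Complex.normSq (v j ψ) = (ℓ : ℝ) ^ 2 := by
      intro j hj
      have hEl : El ℓ (u ^ j) := ⟨1, by rw [pow_one, ← pow_mul, mul_comm, pow_mul, huℓ, one_pow]⟩
      have h2 := co1 ℓ M hM G (u ^ j) hEl b (hLj j hj).blk.ix
      rw [hCj j hj] at h2
      rw [finsum_mem_eq_finite_toFinset_sum _ hfin] at h2
      have hfb : (IrrE M (fun t : Cu u => b t)).Finite := by
        have := Fintype.ofFinite (Cu u)
        exact irr_finite'.subset fun θ h => h.1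
      have h3 : ∑ᶠ κ ∈ IrrE M (fun t : Cu u => b t), κ 1 ^ 2 = (ℓ : ℂ) ^ 2 * (d : ℂ) ^ 2 := by
        rw [finsum_mem_eq_finite_toFinset_sum _ hfb]
        have h4 : ∀ κ ∈ hfb.toFinset, κ 1 ^ 2 = (d : ℂ) ^ 2 := by
          intro κ hκ
          rw [hd.2 κ (hfb.mem_toFinset.1 hκ)]
        rw [Finset.sum_congr rfl h4, Finset.sum_const, nsmul_eq_mul,
          ← Set.ncard_eq_toFinset_card _ hfb, hk, hV]
        push_cast
        ring
      rw [h3] at h2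
      have h5 : ∀ ψ ∈ hfin.toFinset, gv M (Cu u) (u ^ j) b ψ *
          starRingEnd ℂ (gv M (Cu u) (u ^ j) b ψ) =
          (((d : ℝ) ^ 2 * Complex.normSq (v j ψ) : ℝ) : ℂ) := by
        intro ψ _
        have h6 : gv M (Cu u) (u ^ j) b ψ = d * v j ψ := by
          rw [hvd]
          show gv M (Cu u) (u ^ j) b ψ = d * (gv M (Cu u) (u ^ j) b ψ / d)
          field_simp
        rw [h6, map_mul, Complex.conj_natCast]
        push_cast
        rw [← Complex.mul_conj (v j ψ)]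
        ring
      rw [Finset.sum_congr rfl h5] at h2
      have h7 : ((d : ℝ) ^ 2 * ∑ ψ ∈ hfin.toFinset, Complex.normSq (v j ψ) : ℝ) =
          (ℓ : ℝ) ^ 2 * (d : ℝ) ^ 2 := by
        rw [Finset.mul_sum]
        exact_mod_cast h2
      have hdr : (d : ℝ) ^ 2 ≠ 0 := by
        have : (d : ℝ) ≠ 0 := by exact_mod_cast hd.1.ne'
        positivity
      apply mul_left_cancel₀ hdr
      rw [h7]
      ring
    -- the other characters
    have hone : ∀ ψ ∈ IrrE M e, ψ = χ := by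
      intro ψ hψ
      by_contra hne
      have h2 : ∑ j ∈ Finset.Icc 1 (ℓ - 1), ∑ θ ∈ hfin.toFinset, Complex.normSq (v j θ) =
          ((ℓ - 1 : ℕ) : ℝ) * (ℓ : ℝ) ^ 2 := by
        rw [Finset.sum_congr rfl hco, Finset.sum_const, Nat.card_Icc, nsmul_eq_mul,
          Nat.add_sub_cancel]
      have h3 : ∀ j ∈ Finset.Icc 1 (ℓ - 1), Complex.normSq (v j χ) + Complex.normSq (v j ψ) ≤
          ∑ θ ∈ hfin.toFinset, Complex.normSq (v j θ) := by
        intro j _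
        have h4 : ∑ θ ∈ ({χ, ψ} : Finset (G → ℂ)), Complex.normSq (v j θ) =
            Complex.normSq (v j χ) + Complex.normSq (v j ψ) :=
          Finset.sum_pair (Ne.symm hne)
        rw [← h4]
        refine Finset.sum_le_sum_of_subset_of_nonneg ?_ fun _ _ _ => Complex.normSq_nonneg _
        intro θ hθ
        rw [hfin.mem_toFinset]
        rcases Finset.mem_insert.1 hθ with rfl | h
        · exact hχ.1
        · rw [Finset.mem_singleton.1 h]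
          exact hψ.1
      have h4 := Finset.sum_le_sum h3
      rw [Finset.sum_add_distrib, h2] at h4
      have h5 : Complex.normSq (v 1 ψ) ≤ ∑ j ∈ Finset.Icc 1 (ℓ - 1), Complex.normSq (v j ψ) :=
        Finset.single_le_sum (f := fun j => Complex.normSq (v j ψ))
          (fun _ _ => Complex.normSq_nonneg _) h1m
      have h6 : 0 < Complex.normSq (v 1 ψ) := Complex.normSq_pos.2 (hv1 ψ hψ)
      linarith
    have hset : IrrE M e = {χ} := by
      ext ψ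
      rw [Set.mem_singleton_iff]
      exact ⟨hone ψ, fun h => h ▸ hχ⟩
    have hsing : ∀ g, ¬ Reg ℓ g → χ g = 0 := by
      intro g hg
      have h2 := ((prg ℓ M hM).1 G e hL.blk.1).sg g hg
      unfold K9.pr at h2
      rw [hset, finsum_mem_singleton] at h2
      exact (mul_eq_zero.1 h2).resolve_left (irr_one_ne hχ.1)
    have h0 := gv_zero prg hM huℓ hu.2.1 hIx.idem hsing
    apply hv1 χ hχ
    rw [hvd]
    show gv M (Cu u) (u ^ 1) b χ / d = 0
    rw [pow_one, h0, zero_div]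
  refine ⟨hA, ?_⟩
  intro hB
  obtain ⟨ε, hε, h1⟩ := hcg 1 h1m
  obtain ⟨h2, h3⟩ := h1 χ hχ
  rw [← hq] at h2 h3
  have hdR : ((q.den : ℕ) : ℂ)⁻¹ ∈ RM M := inv_nat_RM hp hM hA
  have hqe : (q : ℂ) = ((q.num : ℤ) : ℂ) * ((q.den : ℕ) : ℂ)⁻¹ := by
    rw [← div_eq_mul_inv]
    exact_mod_cast congrArg (fun x : ℚ => (x : ℂ)) (Rat.num_div_den q).symm
  have hqR : (q : ℂ) ∈ RM M ∧ rr M (q : ℂ) = 0 := by
    rw [hqe]
    refine ⟨(RM M).mul_mem (rr_int _).1 hdR, ?_⟩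
    rw [rr_mul (rr_int _).1 hdR, (dvd_of_rr hp hM).2 hB, zero_mul]
  rw [rr_mul (hvR 1) hqR.1, hqR.2, mul_zero] at h3
  exact hixr ε hε h3.symm

/-- **HTZ** -/
theorem htz (hixe : HIxeStmt) (hta : HTaStmt) (rgl : T3.RglStmt) (cgr : T3.CgrStmt)
    (dgc : T3.DgcStmt) (inr : T3.InrStmt) (glp : T3.GlpStmt) (co1 : T3.Co1Stmt)
    (lpw : T3.LpwStmt) (prg : K9.PrgStmt) : HTzStmt := by
  intro ℓ hℓ M _ hM V₀ _ _ hex hcd E₀ G _ _ B hB c hc χ hχ
  have hp : ℓ.Prime := hℓ.out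
  obtain ⟨i1, i2, -, i4⟩ := hixe ℓ M hM V₀ E₀ G B hB
  have hu := (i4 c).2.2.1 hc
  have huℓ : B.i c ^ ℓ = 1 := by rw [← map_pow, hex, map_one]
  have hL := hB.ld
  have hV : Nat.card B.i.range = ℓ ^ 2 := by
    rw [← hcd]
    exact (Nat.card_congr (B.i.ofInjective hB.inj).toEquiv).symm
  obtain ⟨b, d, hb, hd, hk, -⟩ := rgl ℓ M hM G B.e B.i.range B.g hL (B.i c) hu
  obtain ⟨c₀, hc₀⟩ := dgc ℓ M hM G B.e B.i.range B.g hL
  obtain ⟨m, hm, hcard⟩ := hta ℓ M hM G B.e B.i.range B.g hL c₀ hc₀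
  obtain ⟨n, hn0, hn⟩ := irr_one hχ.1
  have hix : ¬ ℓ ∣ ix B.i.range B.g := by rwa [i1]
  obtain ⟨q, hq⟩ : ∃ q : ℚ, q = (Nat.card G * c₀ : ℚ) /
      (Nat.card (Subgroup.centralizer (B.i.range : Set G)) * n) := ⟨_, rfl⟩
  obtain ⟨hA, hBn⟩ := core cgr inr glp co1 lpw prg hM hL hV hc₀ hu huℓ hb hd hk hix hχ (q := q) (by
    rw [hq, hn]
    push_cast
    rfl)
  have hG : 0 < Nat.card G := Nat.card_pos
  have hq0 : 0 < q := by
    rw [hq]
    have h1 : 0 < Nat.card (Subgroup.centralizer (B.i.range : Set G)) := Nat.card_pos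
    have h2 := hc₀.1
    positivity
  have hnum : 0 < q.num := Rat.num_pos.2 hq0
  refine ⟨m * q.num.natAbs, q.den, ?_, hA, ?_⟩
  · rw [hp.dvd_mul, not_or]
    refine ⟨hm, fun h => hBn (Int.natCast_dvd.2 h)⟩
  · have h1 : q * q.den = q.num := Rat.mul_den_eq_num q
    have h2 : (q.num : ℚ) = (q.num.natAbs : ℚ) := by
      have : (q.num.natAbs : ℤ) = q.num := Int.natAbs_of_nonneg hnum.le
      have h5 : ((q.num.natAbs : ℤ) : ℚ) = (q.num : ℚ) := by rw [this]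
      rw [← h5, Int.cast_natCast]
    rw [h2] at h1
    have h3 : (Nat.card (Subgroup.centralizer (B.i.range : Set G)) : ℚ) =
        (ℓ : ℚ) ^ 2 * c₀ * m := by
      rw [hcard, hV]
      push_cast
      ring
    rw [h3] at hq
    have hc0 : (c₀ : ℚ) ≠ 0 := by exact_mod_cast hc₀.1.ne'
    have hm0 : (m : ℚ) ≠ 0 := by
      have : m ≠ 0 := by
        rintro rfl
        exact hm (dvd_zero _)
      exact_mod_cast this
    have hn0' : (n : ℚ) ≠ 0 := by exact_mod_cast hn0.ne'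
    have hl0 : (ℓ : ℚ) ≠ 0 := by exact_mod_cast hp.ne_zero
    have h4 : (q.den : ℚ) * Nat.card G = (ℓ : ℚ) ^ 2 * n * (m * q.num.natAbs) := by
      rw [← h1, hq]
      field_simp
    rw [hn]
    exact_mod_cast congrArg (fun z : ℚ => (z : ℂ)) h4

end Pool.Agent.PP.SO.H92
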