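import Pool.Agent.ASO.StmtsL

/-!
# Squad ASO, row LIA: the conclusion of the linear algebra
-/

open scoped BigOperators

noncomputable section

namespace Pool.Agent.PP.SO.H92

/-- the averages commute with the group -/
theorem avg_comm {ℓ : ℕ} {V Γ : Type} [AddCommGroup V] [Module (ZMod ℓ) V]
    [Group Γ] [Fintype Γ] (ρ : Γ →* Module.End (ZMod ℓ) V) (A : Module.End (ZMod ℓ) V) (e₁ : Γ) :
    (∑ e : Γ, ρ e * A * ρ e⁻¹) * ρ e₁ = ρ e₁ * ∑ e : Γ, ρ e * A * ρ e⁻¹ := by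
  rw [Finset.sum_mul, Finset.mul_sum, ← Equiv.sum_comp (Equiv.mulLeft e₁)
    (fun e : Γ => ρ e * A * ρ e⁻¹ * ρ e₁)]
  refine Finset.sum_congr rfl fun e _ => ?_
  show ρ (e₁ * e) * A * ρ (e₁ * e)⁻¹ * ρ e₁ = ρ e₁ * (ρ e * A * ρ e⁻¹)
  rw [mul_assoc _ (ρ (e₁ * e)⁻¹), ← map_mul, mul_inv_rev, inv_mul_cancel_right, map_mul]
  simp only [mul_assoc]

/-- **LIA** -/
theorem lia (lhf : LHfStmt) (lid : LIdStmt) (lc1 : LC1Stmt) (lc2 : LC2Stmt) (lc3 : LC3Stmt) :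
    LIaStmt := by
  intro ℓ _ V Γ _ _ _ _ _ ρ F N s₀ hF hN
  obtain ⟨h, hh⟩ := lhf ℓ V Γ ρ F _ hF
  have hI := lid ℓ V Γ ρ F N s₀ h hF hN hh
  have h0 : (Fintype.card Γ : ZMod ℓ) * s₀ = 0 := by
    by_cases hA : ∀ A : Module.End (ZMod ℓ) V, ∃ a : ZMod ℓ, ∑ e : Γ, ρ e * A * ρ e⁻¹ = a • 1
    · exact lc1 ℓ V Γ ρ F _ h hF hh hI hA
    · rw [not_forall] at hA
      obtain ⟨A, hA⟩ := hA
      rw [not_exists] at hA
      by_cases hS : ∀ e : Γ, ∃ a : ZMod ℓ, ρ e = a • 1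
      · exact lc2 ℓ V Γ ρ F _ h hF hh hI hS
      · rw [not_forall] at hS
        obtain ⟨e₀, hS⟩ := hS
        rw [not_exists] at hS
        exact lc3 ℓ V Γ ρ F _ h hF hh hI e₀ _ hS hA fun e => avg_comm ρ A e
  exact (mul_eq_zero.1 h0).resolve_left hF.cp

end Pool.Agent.PP.SO.H92
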